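import Pool.Agent.H79.DO.Stmts

/-!
# Project DO, module SOUND: valid certificates show that the instance is a yes-instance
-/

set_option autoImplicit false

namespace Pool.Agent.H32.DO

open Pool.Agent.H83 N68a2faeb N487b59b3 TMLib Matrix
open Pool.Agent.H79.DO

lemma frac_eq {p q D x : ℕ} (hq : 0 < q) (hD : 0 < D) (h : x * q = p * D) :
    (p : ℚ) / (q : ℚ) = (x : ℚ) / (D : ℚ) := by
  rw [div_eq_div_iff (by exact_mod_cast hq.ne') (by exact_mod_cast hD.ne')]
  exact_mod_cast h.symm

lemma sum_frac {ι : Type} [Fintype ι] (p q x : ι → ℕ) (D : ℕ) (hD : 0 < D)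
    (hq : ∀ i, 0 < q i) (h : ∀ i, x i * q i = p i * D) (hs : ∑ i, x i = D) :
    ∑ i, (p i : ℚ) / (q i : ℚ) = 1 := by
  rw [Finset.sum_congr rfl fun i _ => frac_eq (hq i) hD (h i), ← Finset.sum_div,
    ← Nat.cast_sum, hs]
  exact div_self (by exact_mod_cast hD.ne')

/-- The chains of a certificate are vectors `XV`. -/
lemma chain_vec (I : Inst) (c : NCert) (w : Fin I.n → Fin I.m → ℕ)
    (P : Fin I.n → Fin I.m → Fin I.k → Fin I.n → ℕ)
    (hN : ∀ (l : Fin I.k) (s t : Fin I.n), NG w P l s t = NN I.m c l s t)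
    (i : ℕ) (h0 : ∀ t, t < I.n → c.X i 0 t = 1)
    (h1 : ∀ j, j < c.len i → c.lab i j < I.k ∧
      ∀ t, t < I.n → c.X i (j + 1) t = ∑ t' ∈ Finset.range I.n, NN I.m c (c.lab i j) t t' * c.X i j t') :
    ∀ j, j ≤ c.len i → ∃ u : List (Fin I.k), ∀ t : Fin I.n, XV (NG w P) u t = c.X i j t := by
  intro j
  induction j with
  | zero => exact fun _ => ⟨[], fun t => (h0 t t.2).symm⟩
  | succ j ih =>
    intro hj
    obtain ⟨u, hu⟩ := ih (by omega)
    obtain ⟨hl, hx⟩ := h1 j (by omega)
    refine ⟨⟨c.lab i j, hl⟩ :: u, fun t => ?_⟩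
    rw [hx t t.2, Finset.sum_range]
    change ∑ t' : Fin I.n, NG w P ⟨c.lab i j, hl⟩ t t' * XV (NG w P) u t' = _
    exact Finset.sum_congr rfl fun t' _ => by rw [hN, hu]

theorem sound (hSND : SND) : SOUND := by
  classical
  intro I c hg
  obtain ⟨⟨hD, hP⟩, ⟨hGd, hG, hGs⟩, ⟨hHd, hH, hHs⟩, ⟨hW, hw⟩, ⟨hR0, hR1⟩, hch, hsep⟩ := hg
  set n := I.n with hn
  set m := I.m with hm
  set k := I.k with hk
  -- the MDP
  have hne : ∀ s : Fin n, ((Finset.univ : Finset (Fin m)).filter fun a : Fin m => I.en (s : ℕ) (a : ℕ) = true).Nonempty := by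
    intro s
    by_contra hcon
    rw [Finset.not_nonempty_iff_eq_empty, Finset.filter_eq_empty_iff] at hcon
    obtain ⟨h1, h2⟩ := hw s s.2
    have h3 : ∑ a ∈ Finset.range m, c.w s a = 0 := by
      refine Finset.sum_eq_zero fun a ha => h1 a (Finset.mem_range.mp ha) ?_
      have := hcon (Finset.mem_univ (⟨a, Finset.mem_range.mp ha⟩ : Fin m))
      simpa using this
    omega
  let M : LMDP (Fin n) (Fin m) (Fin k) :=
    { enabled := fun s => (Finset.univ : Finset (Fin m)).filter fun a : Fin m => I.en (s : ℕ) (a : ℕ) = true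
      enabled_nonempty := hne
      prob := fun s a p => (I.fn s a p.1 p.2 : ℚ) / (I.fd s a p.1 p.2 : ℚ)
      prob_nonneg := fun s a _ p => by positivity
      prob_sum := by
        intro s a ha
        have ha' : I.en s a = true := (Finset.mem_filter.mp ha).2
        obtain ⟨h1, h2⟩ := hP s s.2 a a.2 ha'
        refine sum_frac (fun p : Fin k × Fin n => I.fn s a p.1 p.2) (fun p => I.fd s a p.1 p.2)
          (fun p => c.P s a p.1 p.2) c.D hD (fun p => (h1 p.1 p.1.2 p.2 p.2.2).1)
          (fun p => (h1 p.1 p.1.2 p.2 p.2.2).2) ?_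
        rw [Fintype.sum_prod_type]
        rw [← h2, Finset.sum_range]
        exact Finset.sum_congr rfl fun l _ => by rw [Finset.sum_range] }
  have hmem : ∀ (s : Fin n) (a : Fin m), a ∈ M.enabled s ↔ I.en s a = true := by
    intro s a
    simp [M]
  let μ : Fin n → ℚ := fun s => (I.gn s : ℚ) / (I.gd s : ℚ)
  let ν : Fin n → ℚ := fun s => (I.hn s : ℚ) / (I.hd s : ℚ)
  have hμ1 : ∑ s, μ s = 1 := sum_frac (fun s : Fin n => I.gn s) (fun s => I.gd s)
    (fun s => c.G s) c.Gd hGd (fun s => (hG s s.2).1) (fun s => (hG s s.2).2)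
    (by rw [← hGs, Finset.sum_range])
  have hν1 : ∑ s, ν s = 1 := sum_frac (fun s : Fin n => I.hn s) (fun s => I.hd s)
    (fun s => c.H s) c.Hd hHd (fun s => (hH s s.2).1) (fun s => (hH s s.2).2)
    (by rw [← hHs, Finset.sum_range])
  have hμ : IsDist fun s => ((μ s : ℚ) : ℝ) :=
    ⟨fun s => by simp only [μ]; push_cast; positivity, by rw [← Rat.cast_sum, hμ1, Rat.cast_one]⟩
  have hν : IsDist fun s => ((ν s : ℚ) : ℝ) :=
    ⟨fun s => by simp only [ν]; push_cast; positivity, by rw [← Rat.cast_sum, hν1, Rat.cast_one]⟩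
  -- the strategy
  let w : Fin n → Fin m → ℕ := fun s a => c.w s a
  let P : Fin n → Fin m → Fin k → Fin n → ℕ := fun s a l t => c.P s a l t
  have hoff : ∀ (s : Fin n) (a : Fin m), a ∉ M.enabled s → w s a = 0 := by
    intro s a ha
    rw [hmem] at ha
    exact (hw s s.2).1 a a.2 (by simpa using ha)
  have hsum : ∀ s : Fin n, ∑ a, w s a = c.W := by
    intro s
    rw [← (hw s s.2).2, Finset.sum_range]
  let σ : Strategy M :=
    { wt := fun s a => (w s a : ℝ) / (c.W : ℝ)
      nonneg := fun s a => by positivity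
      off := fun s a ha => by rw [hoff s a ha]; simp
      sum_one := by
        intro s
        rw [← Finset.sum_div, ← Nat.cast_sum]
        have h1 : ∑ a ∈ M.enabled s, w s a = ∑ a, w s a :=
          Finset.sum_subset (Finset.subset_univ _) fun a _ ha => hoff s a ha
        rw [h1, hsum s]
        exact div_self (by exact_mod_cast hW.ne') }
  have hWt : Weights M w c.W σ := ⟨hW, hoff, hsum, fun s a => rfl⟩
  have hNu : Numer M P c.D := ⟨hD, fun s a ha l t => by
    have h1 := ((hP s s.2 a a.2 ((hmem s a).mp ha)).1 l l.2 t t.2)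
    exact frac_eq h1.1 hD h1.2⟩
  have hN : ∀ (l : Fin k) (s t : Fin n), NG w P l s t = NN m c l s t := by
    intro l s t
    unfold NG NN
    rw [Finset.sum_range]
  refine ⟨M, μ, ν, hμ, hν, ⟨hmem, ?_, ?_, ?_⟩, σ, ?_⟩
  · intro s a ha l t
    exact ⟨((hP s s.2 a a.2 ((hmem s a).mp ha)).1 l l.2 t t.2).1, rfl⟩
  · exact fun s => ⟨(hG s s.2).1, rfl⟩
  · exact fun s => ⟨(hH s s.2).1, rfl⟩
  · refine hSND (Fin n) (Fin m) (Fin k) M (fun s => ((μ s : ℚ) : ℝ)) (fun s => ((ν s : ℚ) : ℝ)) hμ hν σ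
      w c.W P c.D hWt hNu (fun s t => c.R s t = true) ?_ ?_ ?_
    · intro s t hs ht
      refine hR0 s s.2 t t.2 ?_ ?_
      · rcases Nat.eq_zero_or_pos (I.gn s) with h | h
        · simp [μ, h] at hs
        · exact h
      · rcases Nat.eq_zero_or_pos (I.hn t) with h | h
        · simp [ν, h] at ht
        · exact h
    · intro s t hst l s' t' h1 h2
      rw [hN] at h1 h2
      exact hR1 s s.2 t t.2 hst l l.2 s' s'.2 t' t'.2 h1 h2
    · intro s
      obtain ⟨h1, h2⟩ := hsep s s.2
      -- the words of the chains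
      have hu : ∀ i : Fin n, ∃ u : List (Fin k), ∀ t : Fin n,
          XV (NG w P) u t = c.X i (c.len i) t := fun i =>
        chain_vec I c w P hN i (hch i i.2).1 (hch i i.2).2 _ le_rfl
      choose u hu using hu
      let v : Fin n → ℝ := fun t => ∑ i : Fin n, ((c.cp s i : ℝ) - c.cq s i) * (XV (NG w P) (u i) t : ℝ)
      have hv : ∀ t : Fin n, v t = ((∑ i ∈ Finset.range n, c.cp s i * c.X i (c.len i) t : ℕ) : ℝ) -
          ((∑ i ∈ Finset.range n, c.cq s i * c.X i (c.len i) t : ℕ) : ℝ) := by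
        intro t
        simp only [v]
        rw [Finset.sum_range, Finset.sum_range]
        push_cast
        rw [← Finset.sum_sub_distrib]
        exact Finset.sum_congr rfl fun i _ => by rw [hu]; ring
      refine ⟨v, ?_, ?_, ?_, ?_⟩
      · have : v = ∑ i : Fin n, ((c.cp s i : ℝ) - c.cq s i) • (fun t => (XV (NG w P) (u i) t : ℝ)) := by
          funext t
          simp [v, Finset.sum_apply]
        rw [this]
        exact Submodule.sum_mem _ fun i _ => Submodule.smul_mem _ _ (Submodule.subset_span ⟨u i, rfl⟩)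
      · intro t
        rw [hv, sub_nonneg]
        exact_mod_cast (h1 t t.2).1
      · rw [hv, sub_pos]
        exact_mod_cast h2
      · intro t ht
        rw [hv, sub_eq_zero]
        exact_mod_cast ((h1 t t.2).2 ht).symm

end Pool.Agent.H32.DO
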