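import Pool.Agent.H79.DO.Stmts

/-!
# Project DO, module SZB: bounds for the instance of some data
-/

set_option autoImplicit false

namespace Pool.Agent.H32.DO

open Pool.Agent.H83 N68a2faeb N487b59b3 TMLib
open Pool.Agent.H74.PPAD (num addB mulB ltB strip unblk unblks decP decL num_lt)
open Pool.Agent.H79.DO

lemma getD_le {α γ : Type} [Enc α] [Enc γ] (f : α → γ) (hf : ∀ a, sz (f a) ≤ sz a) (l : List α)
    (i : ℕ) (d : α) (hd : sz (f d) ≤ 1) : sz (f (l.getD i d)) ≤ sz l := by
  by_cases h : i < l.length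
  · have h1 : l.getD i d ∈ l := by
      rw [List.getD_eq_getElem _ _ h]
      exact List.getElem_mem h
    exact (hf _).trans (sz_le_of_mem h1).le
  · rw [List.getD_eq_default _ _ (not_lt.mp h)]
    exact hd.trans (sz_pos _)

lemma getD_nil_le {α : Type} [Enc α] (l : List (List α)) (i : ℕ) :
    sz (l.getD i []) ≤ sz l := getD_le (fun x => x) (fun _ => le_rfl) l i [] (by simp)

lemma fst_le {α β : Type} [Enc α] [Enc β] (p : α × β) : sz p.1 ≤ sz p := by
  rw [sz_pair]; omega

lemma snd_le {α β : Type} [Enc α] [Enc β] (p : α × β) : sz p.2 ≤ sz p := by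
  rw [sz_pair]; omega

lemma num_lt_sz {z : ℕ} {l : List Bool} (h : sz l ≤ z) : num l < 2 ^ z := by
  have h1 := length_lt_sz l
  exact (num_lt l).trans_le (Nat.pow_le_pow_right (by norm_num) (by omega))

theorem szb : SZB := by
  intro b
  have h1 : sz b.1 ≤ sz b := fst_le b
  have h2 : sz b.2.1 ≤ sz b := (fst_le b.2).trans (snd_le b)
  have h3 : sz b.2.2 ≤ sz b := (snd_le b.2).trans (snd_le b)
  have h4 : ∀ s, sz (b.1.getD s []) ≤ sz b := fun s => (getD_nil_le _ s).trans h1
  have h5 : ∀ s a, sz (((b.1.getD s []).getD a (false, [])).2) ≤ sz b := fun s a =>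
    (getD_le (fun p => p.2) snd_le _ a _ (by simp)).trans (h4 s)
  have h6 : ∀ s a l, sz ((((b.1.getD s []).getD a (false, [])).2).getD l []) ≤ sz b :=
    fun s a l => (getD_nil_le _ l).trans (h5 s a)
  refine ⟨?_, ?_, ?_, ?_⟩
  · have := length_lt_sz b.1
    unfold nB
    omega
  · have := length_lt_sz (b.1.getD 0 [])
    have := h4 0
    unfold mB
    omega
  · have := length_lt_sz (((b.1.getD 0 []).getD 0 (false, [])).2)
    have := h5 0 0
    unfold kB
    omega
  · refine ⟨fun s a l t => ?_, fun s => ?_, fun s => ?_⟩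
    · refine num_lt_sz ((getD_le (fun p => p.2) snd_le _ t _ (by simp)).trans (h6 s a l))
    · refine num_lt_sz ((getD_le (fun p => p.2) snd_le _ s _ (by simp)).trans h2)
    · refine num_lt_sz ((getD_le (fun p => p.2) snd_le _ s _ (by simp)).trans h3)

end Pool.Agent.H32.DO
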